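import Pool.Agent.MP_ed9623_an.H77.SpecA

/-! The Hoelder estimate for stationary data. -/

open scoped InnerProductSpace

namespace Pool.Agent.MP_ed9623_an.H77

theorem rowHol : OfHol := by
  intro H V _ _ _ _ _ _ S R
  have c0 := S.c0
  obtain ⟨a, ha⟩ : ∃ a, a = S.C ^ 2 / (S.c / 4) ^ 3 := ⟨_, rfl⟩
  have a0 : 0 ≤ a := by rw [ha]; positivity
  obtain ⟨N, hN⟩ : ∃ N, N = ‖S.ι‖ := ⟨_, rfl⟩
  have N0 : 0 ≤ N := hN ▸ norm_nonneg _
  refine ⟨2 / S.c * (2 * |R| + 2 * (a * ((N * |R| * |R|) ^ 2 * (N * (2 * |R|))))), by positivity,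
    fun u v x y hx hy hu hv hx' hy' => ?_⟩
  have R0 : 0 ≤ R := (norm_nonneg _).trans hu
  rw [abs_of_nonneg R0]
  have hι : ∀ w, ‖S.ι w‖ ≤ N * ‖w‖ := fun w => hN ▸ S.ι.le_opNorm w
  have e := S.G_sub u v
  rw [← hx, ← hy, ← map_sub] at e
  have y1 := S.young (ε := S.c / 4) (by positivity) u (u - v)
  have y2 := S.young' (ε := S.c / 4) (by positivity) v (u - v)
  have co := S.coer (u - v)
  have hW : ‖u - v‖ ≤ 2 * R := (norm_sub_le _ _).trans (by linarith)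
  have hxy : ‖x - y‖ ≤ 2 * R := (norm_sub_le _ _).trans (by linarith)
  rw [← ha] at y1 y2
  generalize u - v = W at *
  have e2 := adj_inner S.ι (x - y) W
  rw [e, inner_neg_left, inner_add_left, inner_add_left] at e2
  have b1 := (neg_le_abs _).trans (abs_real_inner_le_norm (x - y) (S.ι W))
  have b2 := (neg_le_abs _).trans (abs_real_inner_le_norm (S.B W u) W)
  have b3 := (neg_le_abs _).trans (abs_real_inner_le_norm (S.B v W) W)
  have p0 := norm_nonneg (S.ι W)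
  have k : ∀ w : V, ‖w‖ ≤ R → a * ((‖S.ι w‖ * ‖w‖) ^ 2 * ‖S.ι W‖ ^ 2) ≤
      a * ((N * R * R) ^ 2 * (N * (2 * R))) * ‖S.ι W‖ := fun w hw => by
    have h1 : ‖S.ι w‖ ≤ N * R := (hι w).trans (by gcongr)
    have h2 : ‖S.ι W‖ ≤ N * (2 * R) := (hι W).trans (by gcongr)
    rw [mul_assoc a, mul_assoc _ (N * (2 * R)), sq ‖S.ι W‖]
    gcongr
  have k1 := k u hu
  have k2 := k v hv
  have k3 := mul_le_mul_of_nonneg_right hxy p0
  rw [div_mul_eq_mul_div, div_mul_eq_mul_div, le_div_iff₀ c0]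
  linarith

end Pool.Agent.MP_ed9623_an.H77
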